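import Mathlib
import Pool.Agent.Y215.SK.FinB

set_option autoImplicit false

/-! # Uniruled varieties have many points with roots of unity as multipliers -/

namespace Pool.Agent.V11322.NR

open MvPolynomial Pool.Agent.Helper259.AbsHt Pool.Agent.H533R3.SL

variable {n N r : ℕ}

/-- vectors of roots of unity have height zero -/
theorem height_tors {ι : Type} [Finite ι] (t : ι → Qbar) (m : ℕ) (hm : 0 < m)
    (ht : ∀ i, t i ^ m = 1) : absLogHeight t = 0 := by
  unfold absLogHeight
  set x : ι → fieldOf t := fun i => ⟨t i, IntermediateField.subset_adjoin ℚ _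
    (Set.mem_range_self i)⟩ with hx
  have h1 : x ^ m = 1 := by
    funext i
    apply Subtype.ext
    simp only [hx, Pi.pow_apply, Pi.one_apply]
    push_cast
    exact ht i
  have h2 : Height.logHeight (x ^ m) = m * Height.logHeight x := Height.logHeight_pow x m
  rw [h1, Height.logHeight_one] at h2
  have h3 : (m : ℝ) ≠ 0 := by exact_mod_cast hm.ne'
  have h4 : Height.logHeight x = 0 := by
    rcases mul_eq_zero.1 h2.symm with h | h
    · exact absurd h h3
    · exact h
  rw [h4, zero_div]

/-- the point with parameter `ζ` -/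
noncomputable def zpt (V : Fin r → Fin (n + 1) → Qbar) (ζ : Qbar) : Fin (n + 1) → Qbar :=
  fun a => ∑ j : Fin r, ζ ^ (j : ℕ) * V j a

/-- the points `∑ ζ ^ j V_j`, `ζ` a root of unity -/
def zPts {k : Type} [Field k] [Algebra k Qbar] (P : Fin N → MvPolynomial (Fin (n + 1)) k)
    (G : MvPolynomial (Fin (n + 1)) k) (V : Fin r → Fin (n + 1) → Qbar) :
    Set (Projectivization Qbar (Fin (n + 1) → Qbar)) :=
  {p | ∃ ζ : Qbar, (∃ m : ℕ, 0 < m ∧ ζ ^ m = 1) ∧ (∀ i, aeval (zpt V ζ) (P i) = 0) ∧
    aeval (zpt V ζ) G ≠ 0 ∧ ∃ h : zpt V ζ ≠ 0, p = Projectivization.mk Qbar (zpt V ζ) h}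

theorem infinite_tors : {z : Qbar | ∃ m : ℕ, 0 < m ∧ z ^ m = 1}.Infinite := by
  intro hfin
  obtain ⟨B, hB⟩ : ∃ B : ℕ, hfin.toFinset.card < B := ⟨_, Nat.lt_succ_self _⟩
  have hB0 : 0 < B := by omega
  have : NeZero (B : Qbar) := ⟨by exact_mod_cast hB0.ne'⟩
  obtain ⟨ζ, hζ⟩ := HasEnoughRootsOfUnity.exists_primitiveRoot Qbar B
  have h1 : (Polynomial.nthRootsFinset B (1 : Qbar)).card = B := hζ.card_nthRootsFinset
  have h2 : Polynomial.nthRootsFinset B (1 : Qbar) ⊆ hfin.toFinset := by
    intro z hz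
    rw [Set.Finite.mem_toFinset]
    exact ⟨B, hB0, (Polynomial.mem_nthRootsFinset hB0 (1 : Qbar)).1 hz⟩
  have h3 := Finset.card_le_card h2
  omega

/-- **Converse**, with roots of unity. -/
theorem conv_tors (k : Type) [Field k] [NumberField k]
    (P : Fin N → MvPolynomial (Fin (n + 1)) k) (hu : Uniruled (Ideal.span (Set.range P))) :
    ∃ r : ℕ, ∀ G : MvPolynomial (Fin (n + 1)) k, (∃ e, G.IsHomogeneous e) →
      G ∉ Ideal.span (Set.range P) →
      ∃ (_ : Algebra k Qbar) (V : Fin r → Fin (n + 1) → Qbar), (zPts P G V).Infinite := by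
  classical
  obtain ⟨L, _, _, p, hp, hgen, hc⟩ := hu
  obtain ⟨M, hM⟩ : ∃ M : ℕ, ∀ i m, M ≤ m → (p i).coeff m = 0 := by
    refine ⟨∑ i, (p i).natDegree + 1, fun i m hm => Polynomial.coeff_eq_zero_of_natDegree_lt ?_⟩
    have : (p i).natDegree ≤ ∑ i, (p i).natDegree :=
      Finset.single_le_sum (f := fun i => (p i).natDegree) (fun _ _ => Nat.zero_le _)
        (Finset.mem_univ i)
    omega
  refine ⟨M, fun G hG hGI => ?_⟩
  obtain ⟨K, _, _, _, v, hv1, ⟨i1, i2, hv2⟩, hv3⟩ :=
    Pool.Agent.TH409.SH.specialise (n := n) k L p (Set.range P)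
      (fun F hF => hp F (Ideal.subset_span hF)) M hM hc G (hgen G hG hGI)
  -- an embedding in `Qbar`
  obtain ⟨φ⟩ : Nonempty (K →+* Qbar) := ⟨(IsAlgClosed.lift : K →ₐ[ℚ] Qbar).toRingHom⟩
  let _ : Algebra k Qbar := (φ.comp (algebraMap k K)).toAlgebra
  let V : Fin M → Fin (n + 1) → Qbar := fun j i => φ (v j i)
  refine ⟨inferInstance, V, ?_⟩
  let q0 : Fin (n + 1) → Polynomial K := cur v (fun j => (j : ℕ))
  let q : Fin (n + 1) → Polynomial Qbar := fun i => (q0 i).map φ
  have hpoint : ∀ z : Qbar, (fun i => (q i).eval z) = zpt V z := by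
    intro z
    funext i
    show ((∑ j : Fin M, Polynomial.C (v j i) * Polynomial.X ^ (j : ℕ)).map φ).eval z = _
    rw [Polynomial.map_sum, Polynomial.eval_finsetSum]
    refine Finset.sum_congr rfl fun j _ => ?_
    rw [Polynomial.map_mul, Polynomial.map_C, Polynomial.map_pow, Polynomial.map_X,
      Polynomial.eval_mul, Polynomial.eval_C, Polynomial.eval_pow, Polynomial.eval_X, mul_comm]
  have hev : ∀ (F : MvPolynomial (Fin (n + 1)) k) (z : Qbar),
      aeval (fun i => (q i).eval z) F = ((aeval q0 F : Polynomial K).map φ).eval z := by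
    intro F z
    have h1 : ((aeval q0 F : Polynomial K).map φ).eval z =
        MvPolynomial.eval₂ (((Polynomial.evalRingHom z).comp (Polynomial.mapRingHom φ)).comp
          (algebraMap k (Polynomial K)))
          (fun i => ((Polynomial.evalRingHom z).comp (Polynomial.mapRingHom φ)) (q0 i)) F := by
      rw [MvPolynomial.aeval_def]
      exact MvPolynomial.hom_eval₂ F _ ((Polynomial.evalRingHom z).comp
        (Polynomial.mapRingHom φ)) _
    rw [h1, MvPolynomial.aeval_def]
    congr 1
    refine RingHom.ext fun a => ?_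
    show _ = Polynomial.eval z (Polynomial.map φ (algebraMap k (Polynomial K) a))
    rw [Polynomial.algebraMap_apply]
    show _ = Polynomial.eval z (Polynomial.map φ (Polynomial.C _))
    rw [Polynomial.map_C, Polynomial.eval_C]
    rfl
  have hP0 : ∀ i, aeval q0 (P i) = 0 := fun i => hv1 _ ⟨i, rfl⟩
  have hG1 : (aeval q0 G : Polynomial K) ≠ 0 := by
    intro h
    apply hv3
    have h1 : aeval (fun i => (q0 i).eval 1) G = (aeval q0 G : Polynomial K).eval 1 := by
      have h2 : (aeval q0 G : Polynomial K).eval 1 =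
          MvPolynomial.eval₂ ((Polynomial.evalRingHom 1).comp (algebraMap k (Polynomial K)))
            (fun i => Polynomial.evalRingHom 1 (q0 i)) G := by
        rw [MvPolynomial.aeval_def]
        exact MvPolynomial.hom_eval₂ G _ (Polynomial.evalRingHom 1) _
      rw [h2, MvPolynomial.aeval_def]
      congr 1
      refine RingHom.ext fun a => ?_
      show _ = Polynomial.eval 1 (algebraMap k (Polynomial K) a)
      rw [Polynomial.algebraMap_apply]
      show _ = Polynomial.eval 1 (Polynomial.C _)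
      rw [Polynomial.eval_C]
    rw [h, Polynomial.eval_zero] at h1
    exact h1
  have hG2 : ((aeval q0 G : Polynomial K).map φ) ≠ 0 := by
    rw [Ne, Polynomial.map_eq_zero]
    exact hG1
  have hnc : q i1 * Polynomial.C ((q i2).eval 1) ≠ q i2 * Polynomial.C ((q i1).eval 1) := by
    intro h
    apply hv2
    apply Polynomial.map_injective φ φ.injective
    rw [Polynomial.map_mul, Polynomial.map_mul, Polynomial.map_C, Polynomial.map_C]
    have e : ∀ i, φ ((q0 i).eval 1) = (q i).eval 1 := by
      intro i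
      show φ ((q0 i).eval 1) = ((q0 i).map φ).eval 1
      rw [Polynomial.eval_one_map]
    show q i1 * Polynomial.C (φ ((q0 i2).eval 1)) = q i2 * Polynomial.C (φ ((q0 i1).eval 1))
    rw [e, e]
    exact h
  intro hfin
  -- the exceptional parameters
  have hne0 : q i1 ≠ 0 ∨ q i2 ≠ 0 := by
    by_contra h
    push Not at h
    apply hnc
    rw [h.1, h.2]
  obtain ⟨i0, hi0⟩ : ∃ i0, q i0 ≠ 0 := hne0.elim (fun h => ⟨_, h⟩) (fun h => ⟨_, h⟩)
  have hbad : {z : Qbar | (q i0 * (aeval q0 G : Polynomial K).map φ).eval z = 0}.Finite :=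
    Polynomial.finite_setOfPred_isRoot (mul_ne_zero hi0 hG2)
  have hfib : ∀ y : Fin (n + 1) → Qbar, y ≠ 0 →
      {z : Qbar | ∀ i j, (q i).eval z * y j = (q j).eval z * y i}.Finite := by
    intro y hy
    have h1 : ∃ i j, q i * Polynomial.C (y j) ≠ q j * Polynomial.C (y i) := by
      by_contra h
      push Not at h
      obtain ⟨j0, hj0⟩ := Function.ne_iff.1 hy
      simp only [Pi.zero_apply] at hj0
      have h2 : ∀ i, q i = q j0 * Polynomial.C (y i / y j0) := by
        intro i
        have h3 := h i j0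
        have h4 : q i * Polynomial.C (y j0) * Polynomial.C (y j0)⁻¹ =
            q j0 * Polynomial.C (y i) * Polynomial.C (y j0)⁻¹ := by rw [h3]
        rw [mul_assoc, mul_assoc, ← Polynomial.C_mul, ← Polynomial.C_mul, mul_inv_cancel₀ hj0,
          Polynomial.C_1, mul_one, ← div_eq_mul_inv] at h4
        exact h4
      apply hnc
      rw [h2 i1, h2 i2]
      simp only [Polynomial.eval_mul, Polynomial.eval_C, Polynomial.C_mul]
      ring
    obtain ⟨i, j, hij⟩ := h1
    refine (Polynomial.finite_setOfPred_isRoot (sub_ne_zero.2 hij)).subset ?_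
    intro t ht
    have := ht i j
    show Polynomial.eval t _ = 0
    rw [Polynomial.eval_sub, Polynomial.eval_mul, Polynomial.eval_mul, Polynomial.eval_C,
      Polynomial.eval_C, this, sub_self]
  have hsub : {z : Qbar | ∃ m : ℕ, 0 < m ∧ z ^ m = 1} ⊆
      {z : Qbar | (q i0 * (aeval q0 G : Polynomial K).map φ).eval z = 0} ∪
      ⋃ p ∈ zPts P G V, {z : Qbar | ∀ i j, (q i).eval z * p.rep j = (q j).eval z * p.rep i} := by
    rintro z hz
    by_cases h : (q i0 * (aeval q0 G : Polynomial K).map φ).eval z = 0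
    · exact Or.inl h
    · right
      rw [Polynomial.eval_mul] at h
      have h1 : (q i0).eval z ≠ 0 := left_ne_zero_of_mul h
      have h2 : aeval (fun i => (q i).eval z) G ≠ 0 := by
        rw [hev]
        exact right_ne_zero_of_mul h
      have h0 : zpt V z ≠ 0 := by
        intro h3
        apply h1
        rw [← hpoint] at h3
        exact congrFun h3 i0
      have hmem : Projectivization.mk Qbar (zpt V z) h0 ∈ zPts P G V := by
        refine ⟨z, hz, fun i => ?_, ?_, h0, rfl⟩
        · rw [← hpoint, hev, hP0, Polynomial.map_zero, Polynomial.eval_zero]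
        · rw [← hpoint]
          exact h2
      rw [Set.mem_iUnion₂]
      refine ⟨_, hmem, fun i j => ?_⟩
      obtain ⟨a, ha⟩ := Projectivization.exists_smul_eq_mk_rep Qbar (zpt V z) h0
      rw [← ha]
      have e1 : ∀ i, (q i).eval z = zpt V z i := fun i => congrFun (hpoint z) i
      rw [e1, e1]
      simp only [Pi.smul_apply, Units.smul_def, smul_eq_mul]
      ring
  refine infinite_tors ((hbad.union (hfin.biUnion fun p hp => hfib p.rep ?_)).subset hsub)
  exact p.rep_nonzero

end Pool.Agent.V11322.NR
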