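import Mathlib
import Pool.Agent.V11322.NR.Conv
import Pool.Agent.TH717.GO.Hyb
import Pool.Agent.TH409.SH.Fin2
import Pool.Agent.Y215.SK.FinC
import Pool.Agent.Y215.SP.Off

set_option autoImplicit false

/-! # Rational curves give infinitely many points with roots of unity as multipliers -/

namespace Pool.Agent.V11322.NR

open MvPolynomial Pool.Agent.Helper259.AbsHt Pool.Agent.H533R3.SL

variable {n N r : ℕ}

/-- A nonconstant rational curve over a number field has infinitely many points `∑ ζ ^ j V_j`. -/
theorem tors_of_curve {k : Type} [Field k] (K : Type) [Field K] [NumberField K] [Algebra k K]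
    (P : Fin N → MvPolynomial (Fin (n + 1)) k) {M : ℕ} (v : Fin M → Fin (n + 1) → K)
    (hv1 : ∀ i, aeval (cur v (fun j => (j : ℕ))) (P i) = 0)
    (i1 i2 : Fin (n + 1))
    (hv2 : cur v (fun j => (j : ℕ)) i1 * Polynomial.C ((cur v (fun j => (j : ℕ)) i2).eval 1) ≠
        cur v (fun j => (j : ℕ)) i2 * Polynomial.C ((cur v (fun j => (j : ℕ)) i1).eval 1))
    (G : MvPolynomial (Fin (n + 1)) k)
    (hv3 : aeval (fun i => (cur v (fun j => (j : ℕ)) i).eval 1) G ≠ 0) :
    ∃ (_ : Algebra k Qbar) (V : Fin M → Fin (n + 1) → Qbar), (zPts P G V).Infinite := by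
  classical
  -- an embedding in `Qbar`
  obtain ⟨φ⟩ : Nonempty (K →+* Qbar) := ⟨(IsAlgClosed.lift : K →ₐ[ℚ] Qbar).toRingHom⟩
  let _ : Algebra k Qbar := (φ.comp (algebraMap k K)).toAlgebra
  let V : Fin M → Fin (n + 1) → Qbar := fun j i => φ (v j i)
  refine ⟨inferInstance, V, ?_⟩
  let q0 : Fin (n + 1) → Polynomial K := cur v (fun j => (j : ℕ))
  let q : Fin (n + 1) → Polynomial Qbar := fun i => (q0 i).map φ
  have hpoint : ∀ z : Qbar, (fun i => (q i).eval z) = zpt V z := by
    intro z
    funext i
    show ((∑ j : Fin M, Polynomial.C (v j i) * Polynomial.X ^ (j : ℕ)).map φ).eval z = _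
    rw [Polynomial.map_sum, Polynomial.eval_finsetSum]
    refine Finset.sum_congr rfl fun j _ => ?_
    rw [Polynomial.map_mul, Polynomial.map_C, Polynomial.map_pow, Polynomial.map_X,
      Polynomial.eval_mul, Polynomial.eval_C, Polynomial.eval_pow, Polynomial.eval_X, mul_comm]
  have hev : ∀ (F : MvPolynomial (Fin (n + 1)) k) (z : Qbar),
      aeval (fun i => (q i).eval z) F = ((aeval q0 F : Polynomial K).map φ).eval z := by
    intro F z
    have h1 : ((aeval q0 F : Polynomial K).map φ).eval z =
        MvPolynomial.eval₂ (((Polynomial.evalRingHom z).comp (Polynomial.mapRingHom φ)).comp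
          (algebraMap k (Polynomial K)))
          (fun i => ((Polynomial.evalRingHom z).comp (Polynomial.mapRingHom φ)) (q0 i)) F := by
      rw [MvPolynomial.aeval_def]
      exact MvPolynomial.hom_eval₂ F _ ((Polynomial.evalRingHom z).comp
        (Polynomial.mapRingHom φ)) _
    rw [h1, MvPolynomial.aeval_def]
    congr 1
    refine RingHom.ext fun a => ?_
    show _ = Polynomial.eval z (Polynomial.map φ (algebraMap k (Polynomial K) a))
    rw [Polynomial.algebraMap_apply]
    show _ = Polynomial.eval z (Polynomial.map φ (Polynomial.C _))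
    rw [Polynomial.map_C, Polynomial.eval_C]
    rfl
  have hP0 : ∀ i, aeval q0 (P i) = 0 := fun i => hv1 i
  have hG1 : (aeval q0 G : Polynomial K) ≠ 0 := by
    intro h
    apply hv3
    have h1 : aeval (fun i => (q0 i).eval 1) G = (aeval q0 G : Polynomial K).eval 1 := by
      have h2 : (aeval q0 G : Polynomial K).eval 1 =
          MvPolynomial.eval₂ ((Polynomial.evalRingHom 1).comp (algebraMap k (Polynomial K)))
            (fun i => Polynomial.evalRingHom 1 (q0 i)) G := by
        rw [MvPolynomial.aeval_def]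
        exact MvPolynomial.hom_eval₂ G _ (Polynomial.evalRingHom 1) _
      rw [h2, MvPolynomial.aeval_def]
      congr 1
      refine RingHom.ext fun a => ?_
      show _ = Polynomial.eval 1 (algebraMap k (Polynomial K) a)
      rw [Polynomial.algebraMap_apply]
      show _ = Polynomial.eval 1 (Polynomial.C _)
      rw [Polynomial.eval_C]
    rw [h, Polynomial.eval_zero] at h1
    exact h1
  have hG2 : ((aeval q0 G : Polynomial K).map φ) ≠ 0 := by
    rw [Ne, Polynomial.map_eq_zero]
    exact hG1
  have hnc : q i1 * Polynomial.C ((q i2).eval 1) ≠ q i2 * Polynomial.C ((q i1).eval 1) := by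
    intro h
    apply hv2
    apply Polynomial.map_injective φ φ.injective
    rw [Polynomial.map_mul, Polynomial.map_mul, Polynomial.map_C, Polynomial.map_C]
    have e : ∀ i, φ ((q0 i).eval 1) = (q i).eval 1 := by
      intro i
      show φ ((q0 i).eval 1) = ((q0 i).map φ).eval 1
      rw [Polynomial.eval_one_map]
    show q i1 * Polynomial.C (φ ((q0 i2).eval 1)) = q i2 * Polynomial.C (φ ((q0 i1).eval 1))
    rw [e, e]
    exact h
  intro hfin
  -- the exceptional parameters
  have hne0 : q i1 ≠ 0 ∨ q i2 ≠ 0 := by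
    by_contra h
    push Not at h
    apply hnc
    rw [h.1, h.2]
  obtain ⟨i0, hi0⟩ : ∃ i0, q i0 ≠ 0 := hne0.elim (fun h => ⟨_, h⟩) (fun h => ⟨_, h⟩)
  have hbad : {z : Qbar | (q i0 * (aeval q0 G : Polynomial K).map φ).eval z = 0}.Finite :=
    Polynomial.finite_setOfPred_isRoot (mul_ne_zero hi0 hG2)
  have hfib : ∀ y : Fin (n + 1) → Qbar, y ≠ 0 →
      {z : Qbar | ∀ i j, (q i).eval z * y j = (q j).eval z * y i}.Finite := by
    intro y hy
    have h1 : ∃ i j, q i * Polynomial.C (y j) ≠ q j * Polynomial.C (y i) := by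
      by_contra h
      push Not at h
      obtain ⟨j0, hj0⟩ := Function.ne_iff.1 hy
      simp only [Pi.zero_apply] at hj0
      have h2 : ∀ i, q i = q j0 * Polynomial.C (y i / y j0) := by
        intro i
        have h3 := h i j0
        have h4 : q i * Polynomial.C (y j0) * Polynomial.C (y j0)⁻¹ =
            q j0 * Polynomial.C (y i) * Polynomial.C (y j0)⁻¹ := by rw [h3]
        rw [mul_assoc, mul_assoc, ← Polynomial.C_mul, ← Polynomial.C_mul, mul_inv_cancel₀ hj0,
          Polynomial.C_1, mul_one, ← div_eq_mul_inv] at h4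
        exact h4
      apply hnc
      rw [h2 i1, h2 i2]
      simp only [Polynomial.eval_mul, Polynomial.eval_C, Polynomial.C_mul]
      ring
    obtain ⟨i, j, hij⟩ := h1
    refine (Polynomial.finite_setOfPred_isRoot (sub_ne_zero.2 hij)).subset ?_
    intro t ht
    have := ht i j
    show Polynomial.eval t _ = 0
    rw [Polynomial.eval_sub, Polynomial.eval_mul, Polynomial.eval_mul, Polynomial.eval_C,
      Polynomial.eval_C, this, sub_self]
  have hsub : {z : Qbar | ∃ m : ℕ, 0 < m ∧ z ^ m = 1} ⊆
      {z : Qbar | (q i0 * (aeval q0 G : Polynomial K).map φ).eval z = 0} ∪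
      ⋃ p ∈ zPts P G V, {z : Qbar | ∀ i j, (q i).eval z * p.rep j = (q j).eval z * p.rep i} := by
    rintro z hz
    by_cases h : (q i0 * (aeval q0 G : Polynomial K).map φ).eval z = 0
    · exact Or.inl h
    · right
      rw [Polynomial.eval_mul] at h
      have h1 : (q i0).eval z ≠ 0 := left_ne_zero_of_mul h
      have h2 : aeval (fun i => (q i).eval z) G ≠ 0 := by
        rw [hev]
        exact right_ne_zero_of_mul h
      have h0 : zpt V z ≠ 0 := by
        intro h3
        apply h1
        rw [← hpoint] at h3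
        exact congrFun h3 i0
      have hmem : Projectivization.mk Qbar (zpt V z) h0 ∈ zPts P G V := by
        refine ⟨z, hz, fun i => ?_, ?_, h0, rfl⟩
        · rw [← hpoint, hev, hP0, Polynomial.map_zero, Polynomial.eval_zero]
        · rw [← hpoint]
          exact h2
      rw [Set.mem_iUnion₂]
      refine ⟨_, hmem, fun i j => ?_⟩
      obtain ⟨a, ha⟩ := Projectivization.exists_smul_eq_mk_rep Qbar (zpt V z) h0
      rw [← ha]
      have e1 : ∀ i, (q i).eval z = zpt V z i := fun i => congrFun (hpoint z) i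
      rw [e1, e1]
      simp only [Pi.smul_apply, Units.smul_def, smul_eq_mul]
      ring
  refine infinite_tors ((hbad.union (hfin.biUnion fun p hp => hfib p.rep ?_)).subset hsub)
  exact p.rep_nonzero


/-- A nonconstant rational curve over `ℂ` gives infinitely many points `∑ ζ ^ j V_j`. -/
theorem tors_of_ratC {k : Type} [Field k] [NumberField k] (σ : k →+* ℂ)
    (P : Fin N → MvPolynomial (Fin (n + 1)) k)
    (h : ¬ Pool.Agent.TH717.GO.NoRatC σ (Set.range P)) :
    ∃ (r : ℕ) (_ : Algebra k Qbar) (V : Fin r → Fin (n + 1) → Qbar),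
      (zPts P 1 V).Infinite := by
  classical
  unfold Pool.Agent.TH717.GO.NoRatC at h
  push Not at h
  obtain ⟨q, hq, i, j, a, b, hab⟩ := h
  let _ : Algebra k ℂ := σ.toAlgebra
  -- move the parameter so that the curve is nonconstant at `1`
  obtain ⟨c, i', j', hc⟩ : ∃ (c : ℂ) (i' j' : Fin (n + 1)),
      q i' * Polynomial.C ((q j').eval c) ≠ q j' * Polynomial.C ((q i').eval c) := by
    refine ⟨b, i, j, fun h => hab ?_⟩
    have h1 := congrArg (Polynomial.eval a) h
    simpa using h1
  let p : Fin (n + 1) → Polynomial ℂ := fun i => (q i).comp (Polynomial.X + Polynomial.C (c - 1))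
  have hp1 : ∀ i, (p i).eval 1 = (q i).eval c := by
    intro i
    simp [p]
  have hp : ∀ F ∈ Set.range P, aeval p F = 0 := by
    intro F hF
    have h1 := hq F hF
    have h2 := congrArg (Polynomial.compRingHom (Polynomial.X + Polynomial.C (c - 1))) h1
    rw [map_zero, MvPolynomial.hom_eval₂] at h2
    rw [aeval_def, ← h2]
    congr 1
    refine RingHom.ext fun x => ?_
    show algebraMap k (Polynomial ℂ) x = (Polynomial.C (σ x)).comp _
    rw [Polynomial.C_comp, Polynomial.algebraMap_apply]
    rfl
  have hcp : ∃ i j, p i * Polynomial.C ((p j).eval 1) ≠ p j * Polynomial.C ((p i).eval 1) := by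
    refine ⟨i', j', fun h => hc ?_⟩
    rw [hp1, hp1] at h
    have h2 := congrArg (fun s : Polynomial ℂ => s.comp (Polynomial.X - Polynomial.C (c - 1))) h
    simp only [p, Polynomial.mul_comp, Polynomial.C_comp, Polynomial.comp_assoc,
      Polynomial.add_comp, Polynomial.X_comp, sub_add_cancel, Polynomial.comp_X] at h2
    exact h2
  obtain ⟨M, hM⟩ : ∃ M : ℕ, ∀ i m, M ≤ m → (p i).coeff m = 0 := by
    refine ⟨∑ i, (p i).natDegree + 1, fun i m hm => Polynomial.coeff_eq_zero_of_natDegree_lt ?_⟩
    have : (p i).natDegree ≤ ∑ i, (p i).natDegree :=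
      Finset.single_le_sum (f := fun i => (p i).natDegree) (fun _ _ => Nat.zero_le _)
        (Finset.mem_univ i)
    omega
  obtain ⟨K, _, _, _, v, hv1, ⟨i1, i2, hv2⟩, hv3⟩ :=
    Pool.Agent.TH409.SH.specialise (n := n) k ℂ p (Set.range P) hp M hM hcp 1
      (by rw [map_one]; exact one_ne_zero)
  obtain ⟨alg, V, hV⟩ := tors_of_curve K P v (fun i => hv1 _ ⟨i, rfl⟩) i1 i2 hv2 1 hv3
  exact ⟨M, alg, V, hV⟩

/-- without rational curves over `ℂ`, all curves over all extensions are constant -/
theorem const_of_noRatC {k : Type} [Field k] [NumberField k] (σ : k →+* ℂ)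
    (P : Fin N → MvPolynomial (Fin (n + 1)) k)
    (h : Pool.Agent.TH717.GO.NoRatC σ (Set.range P))
    (L : Type) [Field L] [Algebra k L] (c : Fin r → Fin (n + 1) → L) (l : Fin r → ℕ)
    (hz : ∀ i, aeval (cur c l) (P i) = 0) (i i' : Fin (n + 1)) :
    cur c l i * Polynomial.C (∑ j, c j i') = cur c l i' * Polynomial.C (∑ j, c j i) := by
  classical
  have h1 := Pool.Agent.TH717.GO.noRat_all σ (Set.range P) h r L (cur c l)
    (Finset.univ.image l) ((Finset.card_image_le).trans (by simp)) (fun i => by
      intro m hm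
      rw [Polynomial.mem_support_iff] at hm
      by_contra hcon
      apply hm
      unfold cur
      rw [Polynomial.finsetSum_coeff]
      refine Finset.sum_eq_zero fun j _ => ?_
      rw [Polynomial.coeff_C_mul, Polynomial.coeff_X_pow, if_neg, mul_zero]
      intro h2
      apply hcon
      rw [h2]
      exact Finset.mem_image_of_mem l (Finset.mem_univ j)) (by
      rintro _ ⟨i, rfl⟩
      exact hz i) (by rw [map_one]; exact one_ne_zero) i i'
  rw [cur_eval_one, cur_eval_one] at h1
  exact h1

end Pool.Agent.V11322.NR
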